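import Mathlib
import Pool.Agent.R350.Inst

/-!
# The strong four exponentials problem for pairs of products with one generic row

Let `𝓛` be the space of linear forms in `1` and logarithms of algebraic numbers with algebraic
coefficients and `V` any space of complex numbers of dimension at most `m` over the field of algebraic
numbers.  For all but `C x ^ k (log log x) ^ C / log x` of the `k`-tuples of integers between `1` and
`x` the space `V' = V + Q̄ log a_1 + ⋯ + Q̄ log a_k` has dimension `dim V + k`, and if `x_1, x_2` are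
linearly independent, `y_1, y_2` are linearly independent, `x_1 y_1, x_1 y_2` are in `V'` and
`x_2 y_1, x_2 y_2` are ARBITRARY elements of `𝓛 + V`, then `x_1 y_1, x_1 y_2` are in `V`.
The constant `C` depends only on `m` and `k`.  For `V = 0`, or for `V` of dimension one, this settles
the problem for all pairs for which `x_1 y_1, x_1 y_2` are in `V'`.
-/

namespace Pool.Agent.Results.MP_69a055_nt.GenericRow

open Module

/-- The linear forms in `1` and logarithms of algebraic numbers, with algebraic coefficients. -/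
noncomputable def LogForms : Submodule (algebraicClosure ℚ ℂ) ℂ :=
  Submodule.span (algebraicClosure ℚ ℂ) ({1} ∪ {z : ℂ | IsAlgebraic ℚ (Complex.exp z)})

open Classical in
/-- **Main result.** -/
theorem result (m k : ℕ) :
    ∃ C : ℕ, ∀ x : ℕ, 16 ≤ x → ∀ V : Submodule (algebraicClosure ℚ ℂ) ℂ,
      Module.Finite (algebraicClosure ℚ ℂ) V → finrank (algebraicClosure ℚ ℂ) V ≤ m →
      (((Fintype.piFinset fun _ : Fin k => Finset.Icc 1 x).filter fun a =>
        ¬ (finrank (algebraicClosure ℚ ℂ) (V ⊔ Submodule.span (algebraicClosure ℚ ℂ)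
            (Set.range fun i => (Real.log (a i) : ℂ)) : Submodule (algebraicClosure ℚ ℂ) ℂ) =
            finrank (algebraicClosure ℚ ℂ) V + k ∧
          ∀ u v : Fin 2 → ℂ, LinearIndependent (algebraicClosure ℚ ℂ) u →
            LinearIndependent (algebraicClosure ℚ ℂ) v →
            (∀ j, u 0 * v j ∈ V ⊔ Submodule.span (algebraicClosure ℚ ℂ)
              (Set.range fun i => (Real.log (a i) : ℂ))) →
            (∀ j, u 1 * v j ∈ LogForms ⊔ V) →
            ∀ j, u 0 * v j ∈ V)).card : ℝ) ≤
        C * Real.log (Real.log x) ^ C / Real.log x * (x : ℝ) ^ k := by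
  obtain ⟨C, hC⟩ := Pool.Agent.R350.rate_two k m 0
  refine ⟨C, fun x hx V hVf hVm => ?_⟩
  refine hC x hx (algebraicClosure ℚ ℂ) (algebraicClosure ℚ ℂ) ℂ
    (fun n : ℕ => (Real.log n : ℂ)) _ Pool.Agent.R350.setup_complex V hVf
    hVm _ (fun a ha => (Finset.mem_filter.1 ha).1) ?_
  intro a ha hgood
  apply (Finset.mem_filter.1 ha).2
  refine ⟨hgood.1, fun u v hu hv h0 h1 => ?_⟩
  have h1' : ∀ j, u 1 * v j ∈ Pool.Agent.H301R2.SSE.Lt ⊔
      Submodule.span (algebraicClosure ℚ ℂ) (V : Set ℂ) := by
    intro j
    rw [Submodule.span_eq]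
    exact h1 j
  have hu0 : u 0 ≠ 0 := hu.ne_zero 0
  rcases hgood.2 (fun j => u 0 * v j) (fun j => u 1 * v j) h0 h1' (by ring) (by
    rw [Fintype.linearIndependent_iff]
    intro g hg
    refine Fintype.linearIndependent_iff.1 hv g ?_
    apply mul_left_cancel₀ hu0
    rw [mul_zero, ← hg, Finset.mul_sum]
    exact Finset.sum_congr rfl fun j _ => by rw [mul_smul_comm]) with ⟨ρ, hρ⟩ | h
  · exfalso
    have hv0 : v 0 ≠ 0 := hv.ne_zero 0
    have h2 : u 1 = ρ • u 0 := by
      apply mul_right_cancel₀ hv0
      rw [smul_mul_assoc]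
      exact hρ 0
    have h3 := Fintype.linearIndependent_iff.1 hu ![ρ, -1] (by
      rw [Fin.sum_univ_two]
      simp only [Matrix.cons_val_zero, Matrix.cons_val_one]
      rw [h2, neg_smul, one_smul]
      ring) 1
    simp at h3
  · exact h

end Pool.Agent.Results.MP_69a055_nt.GenericRow
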